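import Mathlib
import Pool.Agent.U839.Cc.Main

set_option autoImplicit false

/-!
# The longest Cunningham chain of the second kind, in random models of the primes

The question is whether there are Cunningham chains of the second kind (`p, 2 p - 1, ...`) of every length. We study
it in the random models of Cramér and Granville. Let `T` be nondecreasing. Only the integers `n` without prime factors
`p ≤ T(n)` can be chosen, independently, with probability `∏_{p ≤ T(n)} (1 - 1/p)⁻¹ / log n`. (Cramér's model is `T = 0`,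
Granville's has `T(n) = log n`.) Let `L(X)` be the length of the longest chain `2^i (n - 1) + 1`, `i = 0, 1, ..., k - 1`,
of chosen numbers with `n ≤ X`. We prove that almost surely

(1) `L(X) ~ log X / log log X`, if `T(n) ≤ (log n)^(1 + o(1))`;

(2) `c ≤ L(X) log log X / log X ≤ 1 + o(1)` for large `X`, if `T(n) ≤ (log n)^θ`, where `θ > 0` is arbitrary and
`c = c(θ) > 0`; and for every `k` there are infinitely many chains of length exactly `k`.

So Granville's model has the same longest chains as Cramér's, although its chosen numbers have to avoid about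
`log X / log log X` residue classes modulo all the primes up to `log X`.

Proof. For the lower bound let `n - 1` be a multiple of `∏_{p ≤ δ log X} p`, so that the terms of the chain are
`1` modulo these primes. The primes between `δ log X` and `T` are treated by Brun's pure sieve; its dimension is the
length `k ≈ log X / log log X` of the chain, which grows with `X`. The sieve works since the sum of `1/p` over these
primes is small, so that only `o(log X / log log X)` primes have to be taken at a time. It gives `X^(1 - δ')` candidates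
in `(X, 2 X]`, and their chains are disjoint, hence independent. The upper bound is a first moment.
-/

open MeasureTheory ProbabilityTheory Filter Topology

namespace Pool.Agent.Results.MP_9f2731_nt.ChainsInRandomModels

open Classical in
/-- `∏_{p ≤ T(n)} (1 - 1/p)⁻¹` if `n` has no prime factor `p ≤ T(n)`, and `0` otherwise. -/
noncomputable def weight (T : ℕ → ℕ) (n : ℕ) : ℝ :=
  if ∀ p, p.Prime → p ≤ T n → ¬ p ∣ n then
    ∏ p ∈ (Finset.Icc 1 (T n)).filter Nat.Prime, (1 - 1 / (p : ℝ))⁻¹ else 0

/-- The random model: `E n` is the event that `n` is chosen; these events are independent and have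
probability `weight T n / log n` (if this is at most `1`, which is the case for all large `n` here). -/
structure Model {Ω : Type*} [MeasurableSpace Ω] (μ : Measure Ω) (T : ℕ → ℕ) (E : ℕ → Set Ω) : Prop where
  meas : ∀ n, MeasurableSet (E n)
  indep : iIndepSet E μ
  law : ∀ n : ℕ, μ.real (E n) = min 1 (weight T n / Real.log n)

/-- The first `k` terms of the Cunningham sequence of the second kind of `n` are in `Q`: a chain of length `k`. -/
def Chain (Q : Set ℕ) (k n : ℕ) : Prop := ∀ i < k, 2 ^ i * (n - 1) + 1 ∈ Q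

/-- The length of the longest chain in `Q` whose first element is at most `X`. -/
noncomputable def L (Q : Set ℕ) (X : ℕ) : ℕ := sSup {k | ∃ n ≤ X, Chain Q k n}

theorem toSieved {Ω : Type*} [MeasurableSpace Ω] {μ : Measure Ω} {T : ℕ → ℕ} {E : ℕ → Set Ω}
    (h : Model μ T E) : Pool.Agent.U839.Sv.Sieved μ E T :=
  ⟨h.meas, h.indep, h.law⟩

theorem term (i n : ℕ) : Pool.Agent.U839.Cc.tm true i (Pool.Agent.U839.Cc.base true n) = 2 ^ i * (n - 1) + 1 := by
  unfold Pool.Agent.U839.Cc.tm Pool.Agent.U839.Cc.base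
  simp

theorem L_eq (Q : Set ℕ) (X : ℕ) : L Q X = Pool.Agent.U839.Cc.LL true Q X := by
  unfold L Pool.Agent.U839.Cc.LL Chain
  simp only [term]

/-- (1) and (2). -/
theorem result.{u} :
    (∀ T : ℕ → ℕ, Monotone T → (∀ δ : ℝ, 0 < δ → ∀ᶠ n : ℕ in atTop, (T n : ℝ) ≤ (Real.log n) ^ (1 + δ)) →
      ∀ (Ω : Type u) [MeasurableSpace Ω] (μ : Measure Ω) [IsProbabilityMeasure μ] (E : ℕ → Set Ω),
      Model μ T E → ∀ᵐ ω ∂μ,
        Tendsto (fun X : ℕ => (L {n | ω ∈ E n} X : ℝ) * Real.log (Real.log X) / Real.log X) atTop (𝓝 1)) ∧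
    (∀ θ : ℝ, 0 < θ → ∃ c : ℝ, 0 < c ∧ ∀ T : ℕ → ℕ, Monotone T →
      (∀ᶠ n : ℕ in atTop, (T n : ℝ) ≤ (Real.log n) ^ θ) →
      ∀ (Ω : Type u) [MeasurableSpace Ω] (μ : Measure Ω) [IsProbabilityMeasure μ] (E : ℕ → Set Ω),
      Model μ T E → ∀ᵐ ω ∂μ,
        (∀ᶠ X : ℕ in atTop, c ≤ (L {n | ω ∈ E n} X : ℝ) * Real.log (Real.log X) / Real.log X) ∧
        (∀ ε : ℝ, 0 < ε → ∀ᶠ X : ℕ in atTop,
          (L {n | ω ∈ E n} X : ℝ) * Real.log (Real.log X) / Real.log X ≤ 1 + ε) ∧
        ∀ k : ℕ, {n | Chain {n | ω ∈ E n} k n ∧ ¬ Chain {n | ω ∈ E n} (k + 1) n}.Infinite) := by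
  refine ⟨fun T hT hT1 Ω _ μ _ E hE => ?_, fun θ hθ => ?_⟩
  · simp only [L_eq]
    exact Pool.Agent.U839.Cc.main1 T hT hT1 (toSieved hE) true
  · obtain ⟨c, hc, h⟩ := Pool.Agent.U839.Cc.main2 θ hθ
    refine ⟨c, hc, fun T hT hTθ Ω _ μ _ E hE => ?_⟩
    filter_upwards [h T hT hTθ Ω μ E (toSieved hE) true] with ω hω
    simp only [L_eq]
    refine ⟨hω.1, hω.2.1, fun k => ?_⟩
    refine (hω.2.2 k).mono ?_
    rintro n ⟨h1, h2⟩
    simp only [term] at h1 h2
    exact ⟨h1, fun h3 => h2 (h3 k (Nat.lt_succ_self k))⟩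

end Pool.Agent.Results.MP_9f2731_nt.ChainsInRandomModels
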