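import Mathlib
import Pool.Agent.U462.Sh.ZInst

set_option autoImplicit false

/-!
# Cunningham chains of the second kind of each length and the Hardy–Littlewood law
-/

namespace Pool.Agent.Results.MP_9f2731_nt.EachLengthIndependent

open Finset Filter
open scoped Topology
open Pool.Agent.U462.Sh.Law

/-- **The chains of each length are independent of all systems which contain no chain of that length.**
For every `k ≥ 1` there is a set `S` of rough numbers `≥ 2` which contains no chain of the second kind with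
`k + 1` members (`p`, `2 (p - 1) + 1`, ..., `2 ^ k (p - 1) + 1`), with the uniform Hardy–Littlewood law for
all systems of linear forms which contain no `k + 1` forms `2 ^ i (l - 1) + 1`, `i ≤ k`; in particular for
all systems which give the chains with `k` members, and for all systems of at most `k` forms. -/
theorem result : ∀ k : ℕ, 1 ≤ k → ∃ S : Set ℕ, (∀ m ∈ S, 2 ≤ m ∧ Rough m) ∧
    (∀ p : ℕ, 1 ≤ p → ∃ i ≤ k, 2 ^ i * (p - 1) + 1 ∉ S) ∧
    Law S (fun L => ¬ ∃ a b : ℤ, ∀ i : ℕ, i ≤ k → (2 ^ i * a, 2 ^ i * (b - 1) + 1) ∈ L) := by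
  classical
  intro k _
  obtain ⟨S, h1, h2, h3⟩ := Pool.Agent.U462.Sh.pat
    {(range (k + 1)).image fun i => (((2 : ℤ) ^ i, 1 - (2 : ℤ) ^ i) : ℤ × ℤ)} (by
    intro P hP
    rw [mem_singleton] at hP
    subst hP
    refine ⟨mem_image.2 ⟨0, by simp, by simp⟩, ?_⟩
    intro l hl
    obtain ⟨i, _, rfl⟩ := mem_image.1 hl
    exact one_le_pow₀ (by norm_num))
  refine ⟨S, h1, ?_, Pool.Agent.U462.Sh.law_mono ?_ h3⟩
  · intro p hp
    by_contra hcon
    push Not at hcon
    apply h2 _ (mem_singleton_self _) p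
    intro l hl
    obtain ⟨i, hi, rfl⟩ := mem_image.1 hl
    rw [mem_range] at hi
    refine ⟨_, hcon i (by omega), ?_⟩
    push_cast [Nat.cast_sub hp]
    ring
  · intro L hL P hP
    rw [mem_singleton] at hP
    subst hP
    rintro ⟨l0, _, hall⟩
    apply hL
    refine ⟨l0.1, l0.2, fun i hi => ?_⟩
    have h4 := hall _ (mem_image.2 ⟨i, mem_range.2 (by omega), rfl⟩)
    have h5 : (2 : ℤ) ^ i * (l0.2 - 1) + 1 = 2 ^ i * l0.2 + (1 - 2 ^ i) := by ring
    rw [h5]
    exact h4

end Pool.Agent.Results.MP_9f2731_nt.EachLengthIndependent
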