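import Pool.Agent.U163.SU.Uni

/-!
# Strings of consecutive primes all of which start chains of almost primes, uniformly in the map `n → a n + b`

A Cunningham chain of the second kind is an orbit of the map `n → 2 n - 1` which consists of primes. Here the first
term is prime and the other `k - 1` terms are almost primes (a bounded number of prime factors, all larger than a
power of `x`), the first terms are the members of a string of `m` CONSECUTIVE primes, and everything is uniform in
the map: for ALL maps `n → a n + b` with `|a|, |b| ≤ x ^ A` which have no local obstruction (the condition, given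
below, is satisfied by `a = 2`, `b = ± 1` and all `k`), a positive proportion of the patterns `H` of `m` elements of
any given large finite set are patterns of consecutive primes `n + h`, `h ∈ H`, which all start such chains, each for
at least `x / (log x) ^ B` of the `n` in `(x, 2 x]`.

Proof. The theorem `R498.MP.stringsUR` of the starting library (Maynard-Tao theorem for strings of consecutive
primes with almost prime polynomial values, uniformly in the polynomial) is applied to the product of the iterates;
the proportion of the patterns follows by double counting (`Helper32K9.Str`).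
-/

set_option autoImplicit false

namespace Pool.Agent.Results.MP_9f2731_nt.StringsOfStarts

open Finset Filter Polynomial

/-- `n` has at most `R` prime factors, counted with multiplicity, all of them at least `w`. -/
def AlmostPrime (R : ℕ) (w : ℝ) (n : ℕ) : Prop :=
  n.primeFactorsList.length ≤ R ∧ ∀ p : ℕ, p.Prime → p ∣ n → w ≤ p

/-- The terms of the chain: `t_0 = n`, `t_(i+1) = a t_i + b`. -/
def term (a b n : ℤ) : ℕ → ℤ
  | 0 => n
  | i + 1 => a * term a b n i + b

/-- The map `n → a n + b` has no local obstruction to chains of length `k`: `|a| ≥ 2`, `a` and `b` are coprime, and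
every prime `p ≤ k` which divides `a - 1` divides `b`. -/
def Admissible (k : ℕ) (a b : ℤ) : Prop :=
  2 ≤ |a| ∧ IsCoprime a b ∧ ∀ p : ℕ, p.Prime → p ≤ k → (p : ℤ) ∣ a - 1 → (p : ℤ) ∣ b

/-- The integers `n` with `x < n`, `n + max H ≤ 2 x`, such that the primes in the interval `[n, n + max H]` are
exactly the numbers `n + h`, `h ∈ H`, all of them are `≡ c` modulo `q`, and all the terms number `1, …, k - 1` of the
chains which start at them are different from `0` and have at most `R` prime factors, all of them at least `x ^ δ`. -/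
def places (k : ℕ) (a b : ℤ) (x q c R : ℕ) (δ : ℝ) (H : Finset ℕ) : Set ℕ :=
  {n | x < n ∧ n + H.sup id ≤ 2 * x ∧ (∀ y ≤ H.sup id, (n + y).Prime ↔ y ∈ H) ∧
    ∀ h ∈ H, n + h ≡ c [MOD q] ∧ ∀ i : ℕ, 1 ≤ i → i < k → term a b (n + h : ℕ) i ≠ 0 ∧
      AlmostPrime R ((x : ℝ) ^ δ) (term a b (n + h : ℕ) i).natAbs}

/-- the polynomials -/
noncomputable def fam (a b : ℤ) : ℕ → ℤ[X]
  | 0 => X
  | i + 1 => C a * fam a b i + C b

theorem fam_eval (a b n : ℤ) (i : ℕ) : (fam a b i).eval n = term a b n i := by
  induction i with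
  | zero => simp [fam, term]
  | succ i ih =>
    rw [fam, term, ← ih]
    simp

theorem fam_deg (a b : ℤ) (i : ℕ) : (fam a b i).natDegree ≤ 1 := by
  induction i with
  | zero => rw [fam]; exact natDegree_X_le
  | succ i ih =>
    rw [fam]
    refine (natDegree_add_le _ _).trans (max_le ((natDegree_C_mul_le _ _).trans ih) ?_)
    rw [natDegree_C]
    omega

theorem term_bound {M : ℤ} (hM : 1 ≤ M) {a b : ℤ} (ha : |a| ≤ M) (hb : |b| ≤ M) (n : ℤ) (i : ℕ) :
    |term a b n i| + 1 ≤ (M + 1) ^ i * (|n| + 1) := by
  induction i with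
  | zero => simp [term]
  | succ i ih =>
    rw [term]
    obtain ⟨v, hv⟩ : ∃ v : ℤ, v = |term a b n i| := ⟨_, rfl⟩
    have hv0 : 0 ≤ v := by rw [hv]; exact abs_nonneg _
    rw [← hv] at ih
    calc |a * term a b n i + b| + 1 ≤ |a * term a b n i| + |b| + 1 := by linarith [abs_add_le (a * term a b n i) b]
      _ = |a| * v + |b| + 1 := by rw [abs_mul, ← hv]
      _ ≤ M * v + M + 1 := by
          have := mul_le_mul_of_nonneg_right ha hv0
          linarith
      _ ≤ (M + 1) * (v + 1) := by nlinarith
      _ ≤ (M + 1) * ((M + 1) ^ i * (|n| + 1)) := by gcongr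
      _ = (M + 1) ^ (i + 1) * (|n| + 1) := by ring

/-- the terms modulo a prime which divides `a` -/
theorem term_of_dvd {p a b : ℤ} (h : p ∣ a) (n : ℤ) (i : ℕ) : p ∣ term a b n (i + 1) - b := by
  rw [term]
  have : a * term a b n i + b - b = a * term a b n i := by ring
  rw [this]
  exact dvd_mul_of_dvd_left h _

/-- the terms modulo a prime which divides `a - 1` -/
theorem term_of_dvd_sub {p a b : ℤ} (h : p ∣ a - 1) (n : ℤ) (i : ℕ) : p ∣ term a b n i - (n + i * b) := by
  induction i with
  | zero => simp [term]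
  | succ i ih =>
    rw [term]
    have : a * term a b n i + b - (n + ((i + 1 : ℕ) : ℤ) * b) =
        (a - 1) * term a b n i + (term a b n i - (n + i * b)) := by push_cast; ring
    rw [this]
    exact dvd_add (dvd_mul_of_dvd_left h _) ih

/-- a fixed point modulo `p` -/
theorem term_of_fixed {p a b n : ℤ} (h : p ∣ a * n + b - n) (i : ℕ) : p ∣ term a b n i - n := by
  induction i with
  | zero => simp [term]
  | succ i ih =>
    rw [term]
    have : a * term a b n i + b - n = a * (term a b n i - n) + (a * n + b - n) := by ring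
    rw [this]
    exact dvd_add (dvd_mul_of_dvd_right ih _) h

/-- no local obstruction -/
theorem local_ok {k : ℕ} {a b : ℤ} (h : Admissible k a b) (p : ℕ) (hp : p.Prime) :
    ∃ n : ℤ, ¬ (p : ℤ) ∣ n ∧ ∀ i < k, ¬ (p : ℤ) ∣ term a b n i := by
  obtain ⟨h1, h2, h3⟩ := h
  have hpZ := Nat.prime_iff_prime_int.1 hp
  have hp1 : ¬ (p : ℤ) ∣ 1 := fun h => hpZ.not_isUnit (isUnit_of_dvd_one h)
  by_cases hpb : (p : ℤ) ∣ b
  · -- `n = 1`: the terms are the powers of `a`
    have hpa : ¬ (p : ℤ) ∣ a := fun h => hpZ.not_isUnit (h2.isUnit_of_dvd' h hpb)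
    refine ⟨1, hp1, fun i hi => ?_⟩
    have key : (p : ℤ) ∣ term a b 1 i - a ^ i := by
      clear hi
      induction i with
      | zero => simp [term]
      | succ i ih =>
        rw [term]
        have : a * term a b 1 i + b - a ^ (i + 1) = a * (term a b 1 i - a ^ i) + b := by ring
        rw [this]
        exact dvd_add (dvd_mul_of_dvd_right ih _) hpb
    intro hd
    have h4 : (p : ℤ) ∣ a ^ i := by
      have := dvd_sub hd key
      simpa using this
    exact hpa (hpZ.dvd_of_dvd_pow h4)
  · by_cases hpa : (p : ℤ) ∣ a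
    · refine ⟨1, hp1, fun i _ => ?_⟩
      rcases i with _ | i
      · simpa [term] using hp1
      · intro hd
        have := dvd_sub hd (term_of_dvd (b := b) hpa 1 i)
        rw [sub_sub_cancel] at this
        exact hpb this
    · by_cases hpa1 : (p : ℤ) ∣ a - 1
      · -- `n = b`
        have hpk : k < p := by
          by_contra hcon
          push Not at hcon
          exact hpb (h3 p hp hcon hpa1)
        refine ⟨b, hpb, fun i hi => ?_⟩
        intro hd
        have h4 := dvd_sub hd (term_of_dvd_sub (b := b) hpa1 b i)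
        rw [sub_sub_cancel] at h4
        have h5 : b + (i : ℤ) * b = ((i + 1 : ℕ) : ℤ) * b := by push_cast; ring
        rw [h5] at h4
        rcases hpZ.dvd_or_dvd h4 with h6 | h6
        · have h7 := Nat.le_of_dvd (by omega) (Int.natCast_dvd_natCast.1 h6)
          omega
        · exact hpb h6
      · -- a fixed point
        have hcop : IsCoprime (p : ℤ) (a - 1) := (Prime.coprime_iff_not_dvd hpZ).2 hpa1
        obtain ⟨u, v, huv⟩ := hcop
        have hfix : (p : ℤ) ∣ a * (-b * v) + b - (-b * v) := by
          have : a * (-b * v) + b - (-b * v) = p * (b * u) := by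
            have h4 : v * (a - 1) = 1 - u * p := by linarith
            have h5 : a * (-b * v) + b - (-b * v) = b - b * (v * (a - 1)) := by ring
            rw [h5, h4]
            ring
          rw [this]
          exact dvd_mul_right _ _
        have hn : ¬ (p : ℤ) ∣ -b * v := by
          intro hd
          rcases hpZ.dvd_or_dvd hd with h6 | h6
          · exact hpb ((dvd_neg).1 h6)
          · apply hp1
            rw [← huv]
            exact dvd_add (dvd_mul_left _ _) (dvd_mul_of_dvd_left h6 _)
        refine ⟨-b * v, hn, fun i _ hd => ?_⟩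
        have := dvd_sub hd (term_of_fixed hfix i)
        rw [sub_sub_cancel] at this
        exact hn this

/-- the terms do not vanish -/
theorem term_ne {k : ℕ} {a b : ℤ} (h : Admissible k a b) (n : ℤ) (i : ℕ) : term a b n (i + 1) ≠ 0 := by
  obtain ⟨h1, h2, -⟩ := h
  intro h0
  rw [term] at h0
  have h3 : a ∣ b := ⟨-term a b n i, by linarith⟩
  have h4 : IsUnit a := h2.isUnit_of_dvd' dvd_rfl h3
  have h5 := Int.isUnit_iff_abs_eq.1 h4
  omega

/-- the two kinds of Cunningham chains -/
theorem admissible_two (k : ℕ) : Admissible k 2 (-1) ∧ Admissible k 2 1 := by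
  refine ⟨⟨by norm_num, ?_, fun p hp _ hd => ?_⟩, ⟨by norm_num, ?_, fun p hp _ hd => ?_⟩⟩
  · exact ⟨1, 1, by norm_num⟩
  · exact absurd (isUnit_of_dvd_one (by simpa using hd)) (Nat.prime_iff_prime_int.1 hp).not_isUnit
  · exact ⟨0, 1, by norm_num⟩
  · exact absurd (isUnit_of_dvd_one (by simpa using hd)) (Nat.prime_iff_prime_int.1 hp).not_isUnit

/-- **Strings of consecutive primes which start chains of almost primes, uniformly in the map.** Let `k`, `m ≥ 1` be
given and let `q` be squarefree. There are `K`, `B` and `δ > 0` such that for every `A` there is an `R` such that for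
every finite set `T` of at least `K` nonnegative integers and all large `x` the following holds for ALL integers
`a`, `b` with `|a|, |b| ≤ x ^ A` which are admissible for `k` and all `c` for which `c` and the terms number
`1, …, k - 1` of the chain which starts at `c` are prime to `q` (for instance `q = 1`): for at least the proportion
`1 / K` of the subsets `H` of `T` with `m` elements there are at least `x / (log x) ^ B` integers `n`, `x < n`,
`n + max H ≤ 2 x`, such that the primes in `[n, n + max H]` are exactly the numbers `n + h`, `h ∈ H`, all of them are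
`≡ c` modulo `q`, and all the terms number `1, …, k - 1` of the chains `t → a t + b` which start at them have at most
`R` prime factors, all of them at least `x ^ δ`. The pairs `(2, -1)` and `(2, 1)` are admissible for all `k`. -/
theorem result (k m : ℕ) (hm : 1 ≤ m) (q : ℕ) (hq : Squarefree q) :
    (∃ (K B : ℕ) (δ : ℝ), 0 < K ∧ 0 < δ ∧ ∀ A : ℕ, ∃ R : ℕ, ∀ T : Finset ℕ, K ≤ T.card →
      ∀ᶠ x : ℕ in atTop, ∀ a b : ℤ, |a| ≤ (x : ℤ) ^ A → |b| ≤ (x : ℤ) ^ A → Admissible k a b →
      ∀ c : ℕ, c.Coprime q → (∀ i : ℕ, 1 ≤ i → i < k → IsCoprime (term a b c i) (q : ℤ)) →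
      T.card.choose m ≤ K * {H : Finset ℕ | H ⊆ T ∧ H.card = m ∧
        (x : ℝ) / Real.log x ^ B ≤ (places k a b x q c R δ H).ncard}.ncard) ∧
    Admissible k 2 (-1) ∧ Admissible k 2 1 := by
  classical
  refine ⟨?_, admissible_two k⟩
  obtain ⟨K, B, δ, hK, hδ, hmain⟩ := Pool.Agent.U163.SU.uni_prod k 1 q hq m hm
  refine ⟨K, B, δ, hK, hδ, fun A => ?_⟩
  obtain ⟨R, hR⟩ := hmain ((A + 1) * k + 3)
  refine ⟨R, fun T hT => ?_⟩
  filter_upwards [hR T hT, eventually_ge_atTop 3] with x hx hx3
  intro a b haA hbA hadm c hc hci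
  have hx3' : (3 : ℤ) ≤ x := by exact_mod_cast hx3
  have hA1 : (1 : ℤ) ≤ (x : ℤ) ^ A := one_le_pow₀ (by linarith)
  refine (hx (fun i : Fin k => if (i : ℕ) = 0 then 1 else fam a b (i : ℕ)) (fun i => by
      split_ifs
      · simp
      · exact fam_deg _ _ _)
    (fun p hp => by
      obtain ⟨n, hn1, hn2⟩ := local_ok hadm p hp
      refine ⟨n, hn1, fun i h => ?_⟩
      split_ifs at h with h0
      · have h1 : (p : ℤ) ∣ 1 := by simpa using h
        exact (Nat.prime_iff_prime_int.1 hp).not_isUnit (isUnit_of_dvd_one h1)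
      · rw [fam_eval] at h
        exact hn2 i i.2 h)
    (fun i y hy => by
      split_ifs with h0
      · simp only [eval_one, abs_one]
        exact one_le_pow₀ (by linarith)
      · rw [fam_eval]
        have h1 := term_bound hA1 haA hbA y i
        have h2 : (x : ℤ) ^ A + 1 ≤ (x : ℤ) ^ (A + 1) := by
          rw [pow_succ]
          nlinarith
        have h3 : |y| + 1 ≤ (x : ℤ) ^ 3 := by nlinarith [sq_nonneg ((x : ℤ) - 3)]
        calc |term a b y i| ≤ ((x : ℤ) ^ A + 1) ^ (i : ℕ) * (|y| + 1) := by linarith
          _ ≤ ((x : ℤ) ^ (A + 1)) ^ (i : ℕ) * (x : ℤ) ^ 3 := by gcongr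
          _ ≤ ((x : ℤ) ^ (A + 1)) ^ k * (x : ℤ) ^ 3 := by
              have h4 : ((x : ℤ) ^ (A + 1)) ^ (i : ℕ) ≤ ((x : ℤ) ^ (A + 1)) ^ k :=
                pow_le_pow_right₀ (one_le_pow₀ (by linarith)) i.2.le
              gcongr
          _ = (x : ℤ) ^ ((A + 1) * k + 3) := by rw [← pow_mul, ← pow_add])
    (fun i y hy0 _ => by
      split_ifs with h0
      · simp
      · rw [fam_eval]
        obtain ⟨j, hj⟩ := Nat.exists_eq_succ_of_ne_zero h0
        rw [hj]
        exact term_ne hadm y j)
    c (fun p hp hpq => by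
      refine ⟨fun h => ?_, fun i h => ?_⟩
      · have h1 := Nat.dvd_gcd (Int.natCast_dvd_natCast.1 h) hpq
        rw [hc] at h1
        exact hp.one_lt.ne' (Nat.dvd_one.1 h1)
      · split_ifs at h with h0
        · have h1 : (p : ℤ) ∣ 1 := by simpa using h
          exact (Nat.prime_iff_prime_int.1 hp).not_isUnit (isUnit_of_dvd_one h1)
        · rw [fam_eval] at h
          have h1 : (p : ℤ) ∣ (q : ℤ) := Int.natCast_dvd_natCast.2 hpq
          exact (Nat.prime_iff_prime_int.1 hp).not_isUnit
            ((hci i (by omega) i.2).isUnit_of_dvd' h h1))).trans (Nat.mul_le_mul_left _ ?_)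
  have heq : ∀ H, Pool.Agent.U163.SU.placesP (fun i : Fin k => if (i : ℕ) = 0 then 1 else fam a b (i : ℕ))
      x q c R δ H ⊆ places k a b x q c R δ H := by
    rintro H n ⟨h1, h2, h3, h4⟩
    refine ⟨h1, h2, h3, fun h hh => ⟨(h4 h hh).1, fun i hi1 hik => ?_⟩⟩
    have h5 := (h4 h hh).2 ⟨i, hik⟩
    have hi0 : ¬ i = 0 := by omega
    simp only [hi0, if_false, fam_eval] at h5
    exact h5
  have hfin : ∀ P : Finset ℕ → Prop, {H : Finset ℕ | H ⊆ T ∧ H.card = m ∧ P H}.Finite := by
    intro P
    apply (T.powersetCard m).finite_toSet.subset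
    rintro H ⟨h1, h2, -⟩
    exact Finset.mem_coe.2 (Finset.mem_powersetCard.2 ⟨h1, h2⟩)
  apply Set.ncard_le_ncard _ (hfin _)
  rintro H ⟨h1, h2, h3⟩
  refine ⟨h1, h2, h3.trans (Nat.cast_le.2 (Set.ncard_le_ncard (heq H) ?_))⟩
  refine (Set.finite_Iic (2 * x)).subset fun y hy => ?_
  have h1 : y + H.sup id ≤ 2 * x := hy.2.1
  rw [Set.mem_Iic]
  omega

end Pool.Agent.Results.MP_9f2731_nt.StringsOfStarts
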